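import Pool.Agent.U422.CubeNum

/-!
# Variational sets of permutation cubes that are preserved by some operation

Let `C_1, …, C_k` be a variational set of `m`-dimensional permutation cubes of order `n`, `m ≥ 2`,
`k ≥ 1`. We ask when it is closed under some operations `a_i : [n]^s → [n]` on the `m` coordinates
and `b_j : [n]^s → [n]` on the values:
`C_j(a_1(x^1_1, …, x^s_1), …, a_m(x^1_m, …, x^s_m)) = b_j(C_j(x^1), …, C_j(x^s))`.
These operations are **arbitrary**; they are unrelated for different `i`, `j`, and no identities are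
assumed. (In the language of constraint satisfaction: the relation of the words
`(x_1, …, x_m, C_1 x, …, C_k x)` has a polymorphism which is not essentially unary.)

* **Dichotomy.** If some `a_i` depends on two of its arguments, then either the variational set is
  homomorphic over an abelian group of order `n` (all `C_j` are sums of endomorphisms, after
  relabelling coordinates and values), or it contains a variational subset of order `r` with
  `2 ≤ r ≤ n / 2`. Conversely all homomorphic sets are closed under such operations.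
* So **large** sets, `2 k > n - 2` for `m = 2` and `2 k > n + 2 m - 2` for `m ≥ 3`, are closed under
  an operation depending on two arguments if and only if they are homomorphic over an abelian group.
  In particular, if a complete set of `n - 1` mutually orthogonal latin squares (an affine plane of
  order `n`) has such an operation, then `n` is a prime power and the set is homomorphic over an
  elementary abelian group (the plane is a translation plane).
* The **largest size** `k` for prime powers `n = q` and `2 m ≤ q + 4` or `m = 2`, among the sets with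
  such an operation, is `value m q` (in the cases covered by the library on linear sets).
* **Weak near unanimity operations** (for finite sets, by Maróti and McKenzie, whenever there are
  idempotent operations which satisfy any nontrivial identities): here the second case of the
  dichotomy is not needed. The sets closed under weak near unanimity operations are exactly the sets
  homomorphic over an abelian group. For **all** orders `n` their largest size is `value m q`, where
  `q` is the least of the prime powers `p^α` which exactly divide `n` (in the covered cases: `m = 2`,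
  `m = 3`, `m ≥ q - 1`, `q` prime, `m = q - 2` and `q` even). For `m = 2` this is MacNeish's `q - 1`.

Idea of the proof. Fixing all but one of the arguments of the operations gives maps `e` which
preserve the set, and all their images have the same size, in all coordinates and values. If a size
is between `1` and `n`, then the image is the wanted subset. Otherwise every argument acts either
trivially or by permutations: a mixture is impossible since the coordinates are independent of each
other. From two arguments of the second kind one obtains operations with a neutral element which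
preserve the set: loops. The cubes are homomorphisms of loops, and since they are bijective on all
lines the loops satisfy the medial law `(a + b) + (c + d) = (a + c) + (b + d)`: they are abelian
groups. For weak near unanimity operations `t` one shows directly, with the loops given by the
cubes, that `t(z, o, …, o)` is injective: it determines `t(z, …, z) = z`. The values for abelian
groups are those of the library (starting file `AbelianGroupSets`).
-/

set_option autoImplicit false

namespace Pool.Agent.Results.MP_c7a479_co.ClosedSets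

open Function Pool.Agent.H430R2.PermCubes Pool.Agent.Y347.VL Pool.Agent.Y347.AG Pool.Agent.U422.Cube

theorem sub_bound {m n k r : ℕ} (hm : 2 ≤ m) (hr : 1 < r) (hrn : 2 * r ≤ n)
    {C : Fin k → (Fin m → Fin n) → Fin n} (h : HasSub C r) :
    (m = 2 → 2 * k + 2 ≤ n) ∧ 2 * k + 2 ≤ n + 2 * m := by
  obtain ⟨C', hC', -⟩ := h
  have hC' : IsVariationalSet m r k C' := hC'
  constructor
  · rintro rfl
    have := Pool.Agent.H625R3.PC.two_dim_le (by omega) hC'
    omega
  · have := IsArray.le_general hC'.2 hm (by omega)
    omega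

theorem poly_of_hom {m n k : ℕ} (hm : 2 ≤ m) (hn : 2 ≤ n) {C : Fin k → (Fin m → Fin n) → Fin n}
    {G : Type} [AddCommGroup G] (hG : Nat.card G = n) (h : IsHomomorphic G m n k C) :
    (∃ (s : ℕ) (a : Fin m → (Fin s → Fin n) → Fin n) (b : Fin k → (Fin s → Fin n) → Fin n),
      2 ≤ s ∧ (∀ i, IsWNU (a i)) ∧ (∀ j, IsWNU (b j)) ∧ Closed C a b) ∧
    ∃ (a : Fin m → (Fin 2 → Fin n) → Fin n) (b : Fin k → (Fin 2 → Fin n) → Fin n),
      Closed C a b ∧ ∃ i l l', l ≠ l' ∧ Depends (a i) l ∧ Depends (a i) l' := by
  obtain ⟨τ, σ, φ, h⟩ := h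
  have hfix : ∀ g : G, (n + 1) • g = g := by
    intro g
    rw [succ_nsmul, ← hG, card_nsmul_eq_zero', zero_add]
  refine ⟨⟨n + 1, _, _, by omega, fun i => sumOp_wnu (τ i) hfix, fun j => sumOp_wnu (σ j) hfix,
    closed_of_hom h (n + 1)⟩, _, _, closed_of_hom h 2, ⟨0, by omega⟩, 0, 1, by decide, ?_⟩
  have hdep : ∀ (i : Fin m) (l : Fin 2), Depends (sumOp 2 (τ i)) l := by
    intro i l
    have h01 : (⟨0, by omega⟩ : Fin n) ≠ ⟨1, by omega⟩ := by
      intro h'
      have := congrArg Fin.val h'
      simp at this
    refine ⟨fun _ => ⟨0, by omega⟩, ⟨1, by omega⟩, fun hcon => h01 ?_⟩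
    have e1 : sumOp 2 (τ i) (fun _ => (⟨0, by omega⟩ : Fin n)) =
        sumOp 2 (τ i) (update (fun _ => ⟨0, by omega⟩) l ⟨0, by omega⟩) := by
      rw [update_eq_self]
    rw [e1, sumOp_update, sumOp_update] at hcon
    exact ((τ i).injective (add_right_cancel ((τ i).symm.injective hcon))).symm
  exact ⟨hdep _ 0, hdep _ 1⟩

/-- **Theorem.** Let `m, n ≥ 2`. (1) The dichotomy. (2) Large sets. (3) Complete sets of mutually
orthogonal latin squares. (4) Sets closed under weak near unanimity operations are homomorphic over an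
abelian group, and all such sets are closed under weak near unanimity operations and under an
operation which depends on two arguments. (5) The largest size of the sets closed under weak near
unanimity operations, for all orders. (6) The largest size of the sets closed under any operation
depending on two arguments, for prime power orders `q`, and an upper bound for all orders if
`m = 2`. Here `IsSyl n q` means that `q` is the least of the numbers `p ^ α` where `p` is a prime
divisor of `n` and `p ^ α` is the largest power of `p` dividing `n`. -/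
theorem result (m n : ℕ) (hm : 2 ≤ m) (hn : 2 ≤ n) :
    -- (1)
    (∀ (k s : ℕ), 0 < k → ∀ C : Fin k → (Fin m → Fin n) → Fin n, IsVariationalSet m n k C →
      ∀ (a : Fin m → (Fin s → Fin n) → Fin n) (b : Fin k → (Fin s → Fin n) → Fin n),
      Closed C a b → ∀ i l l', l ≠ l' → Depends (a i) l → Depends (a i) l' →
        (∃ (G : Type) (_ : AddCommGroup G), Nat.card G = n ∧ IsHomomorphic G m n k C) ∨
        ∃ r, 1 < r ∧ 2 * r ≤ n ∧ HasSub C r) ∧
    -- (2)
    (∀ (k s : ℕ), 0 < k → ((m = 2 ∧ n < 2 * k + 2) ∨ n + 2 * m < 2 * k + 2) →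
      ∀ C : Fin k → (Fin m → Fin n) → Fin n, IsVariationalSet m n k C →
      ∀ (a : Fin m → (Fin s → Fin n) → Fin n) (b : Fin k → (Fin s → Fin n) → Fin n),
      Closed C a b → ∀ i l l', l ≠ l' → Depends (a i) l → Depends (a i) l' →
        ∃ (G : Type) (_ : AddCommGroup G), Nat.card G = n ∧ IsHomomorphic G m n k C) ∧
    -- (3)
    (∀ (s : ℕ) (C : Fin (n - 1) → (Fin 2 → Fin n) → Fin n), IsVariationalSet 2 n (n - 1) C →
      ∀ (a : Fin 2 → (Fin s → Fin n) → Fin n) (b : Fin (n - 1) → (Fin s → Fin n) → Fin n),
      Closed C a b → ∀ i l l', l ≠ l' → Depends (a i) l → Depends (a i) l' →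
        ∃ (p v : ℕ) (G : Type) (_ : AddCommGroup G), p.Prime ∧ v ≠ 0 ∧ n = p ^ v ∧
          Nat.card G = n ∧ (∀ g : G, p • g = 0) ∧ IsHomomorphic G 2 n (n - 1) C) ∧
    -- (4)
    (∀ k : ℕ, 0 < k → ∀ C : Fin k → (Fin m → Fin n) → Fin n, IsVariationalSet m n k C →
      ((∃ (s : ℕ) (a : Fin m → (Fin s → Fin n) → Fin n) (b : Fin k → (Fin s → Fin n) → Fin n),
        2 ≤ s ∧ (∀ i, IsWNU (a i)) ∧ (∀ j, IsWNU (b j)) ∧ Closed C a b) ↔
        ∃ (G : Type) (_ : AddCommGroup G), Nat.card G = n ∧ IsHomomorphic G m n k C) ∧
      ((∃ (G : Type) (_ : AddCommGroup G), Nat.card G = n ∧ IsHomomorphic G m n k C) →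
        ∃ (a : Fin m → (Fin 2 → Fin n) → Fin n) (b : Fin k → (Fin 2 → Fin n) → Fin n),
          Closed C a b ∧ ∃ i l l', l ≠ l' ∧ Depends (a i) l ∧ Depends (a i) l')) ∧
    -- (5)
    (∃ q, IsSyl n q) ∧
    (∀ q, IsSyl n q → (m = 2 ∨ m = 3 ∨ q ≤ m + 1 ∨ q.Prime ∨ (q % 2 = 0 ∧ q ≤ m + 2)) →
      IsGreatest (WNUSizes m n) (value m q)) ∧
    -- (6)
    (IsPrimePow n → (m = 2 ∨ 2 * m ≤ n + 4) →
      (m = 2 ∨ m = 3 ∨ n ≤ m + 1 ∨ n.Prime ∨ (n % 2 = 0 ∧ n ≤ m + 2)) →
      IsGreatest (PolySizes m n) (value m n)) ∧
    (∀ q, IsSyl n q → ∀ k ∈ PolySizes 2 n, k ≤ q - 1 ∨ 2 * k + 2 ≤ n) := by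
  have hne : Nonempty (Fin n) := ⟨⟨0, by omega⟩⟩
  have h1 : ∀ (m k s : ℕ), 2 ≤ m → 0 < k → ∀ C : Fin k → (Fin m → Fin n) → Fin n,
      IsVariationalSet m n k C →
      ∀ (a : Fin m → (Fin s → Fin n) → Fin n) (b : Fin k → (Fin s → Fin n) → Fin n),
      Closed C a b → ∀ i l l', l ≠ l' → Depends (a i) l → Depends (a i) l' →
        (∃ (G : Type) (_ : AddCommGroup G), Nat.card G = n ∧ IsHomomorphic G m n k C) ∨
        ∃ r, 1 < r ∧ 2 * r ≤ n ∧ HasSub C r := by
    intro m k s hm hk C hC a b hcl i l l' hll hl hl'
    rcases dichotomy hm hk hC hcl hll hl hl' with h | h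
    · exact Or.inl (hom_of_homOver h)
    · rw [Fintype.card_fin] at h
      exact Or.inr h
  have h2 : ∀ (m k s : ℕ), 2 ≤ m → 0 < k →
      ((m = 2 ∧ n < 2 * k + 2) ∨ n + 2 * m < 2 * k + 2) →
      ∀ C : Fin k → (Fin m → Fin n) → Fin n, IsVariationalSet m n k C →
      ∀ (a : Fin m → (Fin s → Fin n) → Fin n) (b : Fin k → (Fin s → Fin n) → Fin n),
      Closed C a b → ∀ i l l', l ≠ l' → Depends (a i) l → Depends (a i) l' →
        ∃ (G : Type) (_ : AddCommGroup G), Nat.card G = n ∧ IsHomomorphic G m n k C := by
    intro m k s hm hk hbig C hC a b hcl i l l' hll hl hl'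
    rcases h1 m k s hm hk C hC a b hcl i l l' hll hl hl' with h | ⟨r, hr, hrn, hsub⟩
    · exact h
    · exfalso
      have h3 := sub_bound hm hr hrn hsub
      rcases hbig with ⟨h4, h5⟩ | h5
      · have := h3.1 h4
        omega
      · have := h3.2
        omega
  refine ⟨fun k s => h1 m k s hm, fun k s => h2 m k s hm, ?_, ?_, exists_syl hn, ?_, ?_, ?_⟩
  · intro s C hC a b hcl i l l' hll hl hl'
    obtain ⟨G, inst, hG, hhom⟩ := h2 2 (n - 1) s le_rfl (by omega) (Or.inl ⟨rfl, by omega⟩) C hC a b
      hcl i l l' hll hl hl'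
    obtain ⟨p, v, hp, hv, hnp, hpg⟩ := complete_group hn hG ⟨C, hC, hhom⟩
    exact ⟨p, v, G, inst, hp, hv, hnp, hG, hpg, hhom⟩
  · intro k hk C hC
    refine ⟨⟨?_, ?_⟩, ?_⟩
    · rintro ⟨s, a, b, hs, ha, hb, hcl⟩
      exact hom_of_homOver (wnu_hom hs hm hk hC.1 hcl ha hb)
    · rintro ⟨G, inst, hG, hhom⟩
      exact (poly_of_hom hm hn hG hhom).1
    · rintro ⟨G, inst, hG, hhom⟩
      exact (poly_of_hom hm hn hG hhom).2
  · intro q hq hc
    constructor
    · obtain ⟨G, inst, hG, C, hC, hhom⟩ := exists_group hm hn hq
      exact ⟨C, hC, (poly_of_hom hm hn hG hhom).1⟩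
    · rintro k ⟨C, hC, s, a, b, hs, ha, hb, hcl⟩
      rcases Nat.eq_zero_or_pos k with rfl | hk
      · exact Nat.zero_le _
      · obtain ⟨G, inst, hG, hhom⟩ := hom_of_homOver (wnu_hom hs hm hk hC.1 hcl ha hb)
        exact hom_le hm hn hq hc hG ⟨C, hC, hhom⟩
  · intro hpp hmn hc
    have hq : IsSyl n n := by
      obtain ⟨p, v, hp, hv, rfl⟩ := hpp
      have hp := hp.nat_prime
      refine ⟨⟨p, hp, dvd_pow_self p (by omega), ?_⟩, ?_⟩
      · rw [hp.factorization_pow, Finsupp.single_eq_same]
      · rintro - ⟨p', hp', hdv, rfl⟩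
        have h3 := (Nat.prime_dvd_prime_iff_eq hp' hp).1 (hp'.dvd_of_dvd_pow hdv)
        subst h3
        rw [hp'.factorization_pow, Finsupp.single_eq_same]
    constructor
    · obtain ⟨G, inst, hG, C, hC, hhom⟩ := exists_group hm hn hq
      obtain ⟨a, b, h⟩ := (poly_of_hom hm hn hG hhom).2
      exact ⟨C, hC, 2, a, b, h⟩
    · rintro k ⟨C, hC, s, a, b, hcl, i, l, l', hll, hl, hl'⟩
      rcases Nat.eq_zero_or_pos k with rfl | hk
      · exact Nat.zero_le _
      rcases h1 m k s hm hk C hC a b hcl i l l' hll hl hl' with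
        ⟨G, inst, hG, hhom⟩ | ⟨r, hr, hrn, hsub⟩
      · exact hom_le hm hn hq hc hG ⟨C, hC, hhom⟩
      · have h3 := sub_bound hm hr hrn hsub
        unfold value
        by_cases hm2 : m = 2
        · rw [if_pos hm2]
          have := h3.1 hm2
          omega
        · have h4 := h3.2
          have h5 : 2 * m ≤ n + 4 := by tauto
          rw [if_neg hm2]
          split_ifs <;> omega
  · rintro q hq k ⟨C, hC, s, a, b, hcl, i, l, l', hll, hl, hl'⟩
    rcases Nat.eq_zero_or_pos k with rfl | hk
    · exact Or.inl (Nat.zero_le _)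
    rcases h1 2 k s le_rfl hk C hC a b hcl i l l' hll hl hl' with
      ⟨G, inst, hG, hhom⟩ | ⟨r, hr, hrn, hsub⟩
    · left
      have := hom_le le_rfl hn hq (Or.inl rfl) hG ⟨C, hC, hhom⟩
      rwa [value_two] at this
    · exact Or.inr ((sub_bound le_rfl hr hrn hsub).1 rfl)

end Pool.Agent.Results.MP_c7a479_co.ClosedSets
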