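import Pool.Agent.U671.VS.Bound
import Pool.Agent.U671.VS.Linear

/-!
# Variational sets with simple level sets

Let `C_1, …, C_k` be a variational set of `m`-dimensional permutation cubes of order `n`. We put the
cells `x ∈ [n]^m` at points of `ℝ^d` in any way, and ask how complicated the `k n` level sets
`{x : C_j x = v}` are: the complexity of a semialgebraic set is the least possible sum of the degrees
of polynomials describing it.

(1) If all level sets have complexity at most `D`, then `k ≤ c m` or
`k ^ (d - 1) ≤ c m ^ (d - 1) D ^ d n ^ (d - m)`, where `c` depends on `d` only. Here a positive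
proportion of errors is allowed.

(2) So for `d < m` (for instance, in all dimensions `m ≥ 3` for placements in the plane) and bounded
`D` there are at most `c m` cubes as soon as `n` is large; more precisely, if
`c D ^ d n ^ d < n ^ m`.

(3) If `k ≥ n / s`, then `D ^ d ≥ n ^ (m - 1) / (c (s m) ^ (d - 1))`. So the level sets of large
variational sets are as complicated as those of any permutation cubes:

(4) for *all* families of `m`-dimensional permutation cubes there is a placement at distinct points of
`ℝ^d` for which all level sets are zero sets of polynomials of degree at most `D`,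
`D ^ d ≤ (2 d) ^ d n ^ (m - 1)`.

(5) For `d = m` the bound in (1) is `k ^ (m - 1) ≤ c D ^ m`, with `c` depending on `m` only. It has
the right order for all `D`, and for placements on the grid `[n]^m ⊆ ℝ^m`: for every prime `q` there are
variational sets with `k = q - 1` and `D ^ m ≤ (6 m) ^ m k ^ (m - 1)`, for all orders `n` without
small prime factors.

Proof of (1). Two cells are in at most `m - 1` common level sets. Polynomial partitioning (Guth and
Katz, starting library `R98/EQ`) gives cells of the partition few of which are cut by a given level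
set; the others contain few incidences. The number of parts is chosen with the bound `k ≤ n + m - 1`.
Proof of (5): multiples of `(1, t, …, t ^ (m - 1))` modulo `q` with small coordinates.
-/

set_option autoImplicit false

namespace Pool.Agent.Results.MP_c7a479_co.LevelSets

open MvPolynomial Finset Pool.Agent.H430R2.PermCubes Pool.Agent.U671.VS

open scoped Classical

/-- A level set of an `m`-dimensional permutation cube of order `n` has at most `n ^ (m - 1)` cells. -/
theorem card_level (m n : ℕ) (hm : 1 ≤ m) (C : (Fin m → Fin n) → Fin n)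
    (hC : IsPermutationCube m n C) (v : Fin n) :
    (univ.filter (fun x => C x = v)).card ≤ n ^ (m - 1) := by
  obtain ⟨m', rfl⟩ : ∃ m', m = m' + 1 := ⟨m - 1, by omega⟩
  have h1 : Fintype.card (Fin m' → Fin n) = n ^ (m' + 1 - 1) := by
    rw [Fintype.card_fun, Fintype.card_fin, Fintype.card_fin, Nat.add_sub_cancel]
  rw [← h1, ← Finset.card_univ]
  refine Finset.card_le_card_of_injOn (fun x => Fin.tail x) (fun _ _ => Finset.mem_coe.2 (mem_univ _))
    ?_
  intro x hx y hy hxy
  rw [Finset.mem_coe, Finset.mem_filter] at hx hy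
  have h2 : Fin.tail x = Fin.tail y := hxy
  have h3 : ∀ t, Function.update x 0 t = Function.update y 0 t := by
    intro t
    funext i
    refine Fin.cases ?_ (fun i => ?_) i
    · rw [Function.update_self, Function.update_self]
    · rw [Function.update_of_ne (Fin.succ_ne_zero i), Function.update_of_ne (Fin.succ_ne_zero i)]
      exact congrFun h2 i
  have h4 : x 0 = y 0 := by
    refine (hC 0 x).1 ?_
    change C (Function.update x 0 (x 0)) = C (Function.update x 0 (y 0))
    rw [Function.update_eq_self, h3 (y 0), Function.update_eq_self, hx.2, hy.2]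
  rw [← Function.update_eq_self (0 : Fin (m' + 1)) x, h3 (x 0), h4, Function.update_eq_self]

/-- All families of permutation cubes have level sets of complexity at most `2 d n ^ ((m - 1) / d)`. -/
theorem all_cubes (d : ℕ) (hd : 1 ≤ d) (m n k : ℕ) (C : Fin k → (Fin m → Fin n) → Fin n) (hm : 1 ≤ m)
    (hC : ∀ j, IsPermutationCube m n (C j)) :
    ∃ (p : (Fin m → Fin n) → Fin d → ℝ) (D : ℕ), Function.Injective p ∧
      D ^ d ≤ (2 * d) ^ d * n ^ (m - 1) ∧ Exactly d D p C := by
  obtain ⟨x', D, hinj, hD, h⟩ := Pool.Agent.U671.SD.sharp d (Fintype.card (Fin m → Fin n))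
    (n ^ (m - 1)) hd
  let e : (Fin m → Fin n) ≃ Fin (Fintype.card (Fin m → Fin n)) := Fintype.equivFin _
  refine ⟨fun y => x' (e y), D, hinj.comp e.injective, hD, fun j v => ?_⟩
  obtain ⟨g, hg1, hg2⟩ := h ((univ.filter (fun x => C j x = v)).map e.toEmbedding) (by
    rw [Finset.card_map]
    exact card_level m n hm (C j) (hC j) v)
  refine ⟨{v | eval v g = 0}, ⟨1, fun _ => g, {σ | σ 0 = 0}, ?_, ?_⟩, ?_⟩
  · rw [Fin.sum_univ_one]
    exact hg1
  · intro v
    change eval v g = 0 ↔ SignType.sign (eval v g) = 0
    rw [sign_eq_zero_iff]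
  · intro y
    change eval (x' (e y)) g = 0 ↔ C j y = v
    rw [hg2, Finset.mem_map_equiv, Equiv.symm_apply_apply, Finset.mem_filter]
    exact ⟨fun h => h.2, fun h => ⟨mem_univ _, h⟩⟩

/-- Let `d ≥ 1`. There is `c ≥ 1` such that the following holds.

1. Let `C_1, …, C_k` be a variational set of `m`-dimensional permutation cubes of order `n`,
`m, n ≥ 2`, and suppose that for some placement of the cells at points of `ℝ^d` all level sets are
described, up to errors in total at most a quarter of the incidences, by semialgebraic sets of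
complexity at most `D`. Then `k ≤ c m` or `k ^ (d - 1) n ^ m ≤ c m ^ (d - 1) (D n) ^ d`.
2. In particular, `k ≤ c m` if `c (D n) ^ d < n ^ m`.
3. If `k > c m` and `n ≤ s k`, then `n ^ (m - 1) ≤ c (s m) ^ (d - 1) D ^ d`.
4. For every family of `m`-dimensional permutation cubes of order `n` there are `D` with
`D ^ d ≤ (2 d) ^ d n ^ (m - 1)` and a placement at distinct points of `ℝ^d` for which all level sets are
given without errors by semialgebraic sets of complexity at most `D`.
5. For `m = d ≥ 2` the bound 1, that is `k ^ (m - 1) ≤ c m ^ (m - 1) D ^ m` for `k > c m`, has the right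
order in `D`: if `q` is a prime number and all prime factors of `n ≥ 2` exceed `m! q ^ (m - 1)`, then there
is a variational set of `k = q - 1` cubes such that, for the placement at the points of the grid `[n]^m`,
all level sets are given without errors by semialgebraic sets of complexity at most `D`, where
`D ^ m ≤ (6 m) ^ m k ^ (m - 1)`. -/
theorem result (d : ℕ) (hd : 1 ≤ d) : ∃ c : ℕ, 1 ≤ c ∧
    -- (1)
    (∀ (m n k D : ℕ) (C : Fin k → (Fin m → Fin n) → Fin n), 2 ≤ m → 2 ≤ n → 1 ≤ D →
      IsVariationalSet m n k C → Roughly d D C →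
      k ≤ c * m ∨ k ^ (d - 1) * n ^ m ≤ c * m ^ (d - 1) * (D * n) ^ d) ∧
    -- (2)
    (∀ (m n k D : ℕ) (C : Fin k → (Fin m → Fin n) → Fin n), 2 ≤ m → 2 ≤ n → 1 ≤ D →
      IsVariationalSet m n k C → Roughly d D C → c * (D * n) ^ d < n ^ m → k ≤ c * m) ∧
    -- (3)
    (∀ (m n k D s : ℕ) (C : Fin k → (Fin m → Fin n) → Fin n), 2 ≤ m → 2 ≤ n → 1 ≤ D →
      IsVariationalSet m n k C → Roughly d D C → c * m < k → n ≤ s * k →
      n ^ (m - 1) ≤ c * (s * m) ^ (d - 1) * D ^ d) ∧
    -- (4)
    (∀ (m n k : ℕ) (C : Fin k → (Fin m → Fin n) → Fin n), 1 ≤ m →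
      (∀ j, IsPermutationCube m n (C j)) →
      ∃ (p : (Fin m → Fin n) → Fin d → ℝ) (D : ℕ), Function.Injective p ∧
        D ^ d ≤ (2 * d) ^ d * n ^ (m - 1) ∧ Exactly d D p C) ∧
    -- (5)
    (2 ≤ d → ∀ q n : ℕ, q.Prime → 2 ≤ n →
      (∀ r : ℕ, r.Prime → r ∣ n → d.factorial * q ^ (d - 1) < r) →
      ∃ (C : Fin (q - 1) → (Fin d → Fin n) → Fin n) (D : ℕ), IsVariationalSet d n (q - 1) C ∧
        D ^ d ≤ (6 * d) ^ d * (q - 1) ^ (d - 1) ∧ Exactly d D (fun x i => ((x i : ℕ) : ℝ)) C) := by
  obtain ⟨c, hc, h⟩ := bound d hd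
  have h1 : ∀ (m n k D : ℕ) (C : Fin k → (Fin m → Fin n) → Fin n), 2 ≤ m → 2 ≤ n → 1 ≤ D →
      IsVariationalSet m n k C → Roughly d D C →
      k ≤ c * m ∨ k ^ (d - 1) * n ^ m ≤ c * m ^ (d - 1) * (D * n) ^ d :=
    fun m n k D C hm hn hD hC hR => h m n k D C hm hn hD hC.2 hR
  refine ⟨c, hc, h1, ?_, ?_, ?_, ?_⟩
  · intro m n k D C hm hn hD hC hR hlt
    rcases h1 m n k D C hm hn hD hC hR with h2 | h2
    · exact h2
    · by_contra hcon
      push Not at hcon
      have h3 : m ≤ k := by
        calc m = 1 * m := (Nat.one_mul m).symm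
          _ ≤ c * m := Nat.mul_le_mul_right _ hc
          _ ≤ k := hcon.le
      have h4 : m ^ (d - 1) * n ^ m ≤ m ^ (d - 1) * (c * (D * n) ^ d) := by
        calc m ^ (d - 1) * n ^ m ≤ k ^ (d - 1) * n ^ m :=
              Nat.mul_le_mul_right _ (Nat.pow_le_pow_left h3 _)
          _ ≤ c * m ^ (d - 1) * (D * n) ^ d := h2
          _ = _ := by ring
      have h5 := Nat.le_of_mul_le_mul_left h4 (by positivity)
      omega
  · intro m n k D s C hm hn hD hC hR hk hs
    rcases h1 m n k D C hm hn hD hC hR with h2 | h2
    · omega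
    · have e1 : n ^ (d - 1) * n ^ m = n ^ (m - 1) * n ^ d := by
        rw [← pow_add, ← pow_add]
        congr 1
        omega
      have h3 : n ^ (m - 1) * n ^ d ≤ (c * (s * m) ^ (d - 1) * D ^ d) * n ^ d := by
        calc n ^ (m - 1) * n ^ d = n ^ (d - 1) * n ^ m := e1.symm
          _ ≤ (s * k) ^ (d - 1) * n ^ m := Nat.mul_le_mul_right _ (Nat.pow_le_pow_left hs _)
          _ = s ^ (d - 1) * (k ^ (d - 1) * n ^ m) := by rw [mul_pow]; ring
          _ ≤ s ^ (d - 1) * (c * m ^ (d - 1) * (D * n) ^ d) := Nat.mul_le_mul_left _ h2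
          _ = _ := by
            rw [mul_pow s m, mul_pow D n]
            ring
      exact Nat.le_of_mul_le_mul_right h3 (by positivity)
  · exact fun m n k C hm hC => all_cubes d hd m n k C hm hC
  · exact fun hd2 q n hq hn hpf => linear d q n hd2 hq hn hpf

end Pool.Agent.Results.MP_c7a479_co.LevelSets
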