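import Pool.Agent.U396.BC.Var

set_option autoImplicit false

/-!
# Largest variational sets of permutation cubes and circuits of constant depth

Let `π_m(N)` be the largest size of a variational set of `m`-dimensional permutation cubes of order
`N`. For primes `N ≥ m` it is at least `N + 1` (`N - 1` if `m = 2`). If `N ≡ 1 (mod 4)` is exactly
divisible by a prime `q ≡ 3 (mod 4)`, it is less than `N - t` as long as `100 (t + m) ^ 4 ≤ N`: the
cells at which `m - 2` of the cubes vanish form a net of order `N` and of deficiency `t + m - 1`, such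
a net is part of an affine plane (Bruck; proved in `Pool/Agent/U396/BC`), and there is no plane of
order `N` (Bruck and Ryser). Circuits of constant depth with AND, OR, NOT and `MOD r` gates cannot tell
these two kinds of orders from each other (Smolensky; engine in `Pool/Agent/U343/Sm`).
-/

namespace Pool.Agent.Results.MP_c7a479_co.VariationalSetsHardForCircuits

open Filter
open Pool.Agent.U343.Sm (Circuit bits)
open Pool.Agent.H430R2.PermCubes (IsVariationalSet)
open Pool.Agent.H177R2.SD (IsSymmetricDesign)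

/-- There is a variational set of `k` permutation cubes of dimension `m` and order `N`; in other
words, `k ≤ π_m(N)`. -/
def AtLeast (m N k : ℕ) : Prop :=
  ∃ C : Fin k → (Fin m → Fin N) → Fin N, IsVariationalSet m N k C

/-- (1) For every prime `r` and every `d` there is `κ > 0` such that for all large `n`: if `f` is
computed by a circuit of depth `d` with AND, OR, NOT and `MOD r` gates with at most `S` inputs and
`S ≤ 2 ^ (n ^ (1 / (2 d + 5)))`, then there are more than `κ 2 ^ n / n` integers `N < 2 ^ n`,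
`N ≡ 1 (mod 4)`, such that `f` answers `no` although `π_2(N) ≥ N - 1` and `π_m(N) ≥ N + 1` for
`3 ≤ m ≤ N`, or `f` answers `yes` although `π_m(N) < N - t` for all `m ≥ 2` and `t ≥ 1` with
`100 (t + m) ^ 4 ≤ N`.

(2) If `m ≥ 2`, `t ≥ 1`, `100 (t + m) ^ 4 ≤ N` and `π_m(N) ≥ N - t`, then there is a symmetric design
with the parameters of a projective plane of order `N`.

(3) In particular `π_m(N) < N - t` if `m ≥ 2`, `t ≥ 1`, `100 (t + m) ^ 4 ≤ N`, `N ≡ 1` or `2 (mod 4)`
and `N` is exactly divisible by a prime `q ≡ 3 (mod 4)`. -/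
theorem result :
    (∀ r : ℕ, r.Prime → ∀ d : ℕ, ∃ κ : ℝ, 0 < κ ∧ ∀ᶠ n : ℕ in atTop,
      ∀ (S : ℕ) (f : (Fin n → Bool) → Bool), Circuit r S n d f →
      (S : ℝ) ≤ 2 ^ ((n : ℝ) ^ (1 / (2 * (d : ℝ) + 5))) →
      κ * 2 ^ n / n < ({N : ℕ | N < 2 ^ n ∧ N % 4 = 1 ∧
        ((f (bits n N) = false ∧
          ∀ m, 2 ≤ m → m ≤ N → AtLeast m N (if m = 2 then N - 1 else N + 1)) ∨
        (f (bits n N) = true ∧
          ∀ m t, 2 ≤ m → 1 ≤ t → 100 * (t + m) ^ 4 ≤ N → ¬ AtLeast m N (N - t)))}.ncard : ℝ)) ∧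
    (∀ m N t : ℕ, 2 ≤ m → 1 ≤ t → 100 * (t + m) ^ 4 ≤ N → AtLeast m N (N - t) →
      IsSymmetricDesign (N ^ 2 + N + 1) (N + 1) 1) ∧
    (∀ N q : ℕ, N % 4 = 1 ∨ N % 4 = 2 → q.Prime → q % 4 = 3 → q ∣ N → ¬ q ^ 2 ∣ N →
      ∀ m t : ℕ, 2 ≤ m → 1 ≤ t → 100 * (t + m) ^ 4 ≤ N → ¬ AtLeast m N (N - t)) :=
  ⟨fun _ hr d => Pool.Agent.U396.BC.main hr d,
    fun _ _ _ hm ht hN h => Pool.Agent.U396.BC.has_plane hm ht hN h,
    fun _ _ h4 hq hq4 h1 h2 _ _ hm ht hN => Pool.Agent.U396.BC.not_has hm ht hN h4 hq hq4 h1 h2⟩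

end Pool.Agent.Results.MP_c7a479_co.VariationalSetsHardForCircuits
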